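import Pool.Agent.Helper95.PW.Stmts

/-! # Row MAIN of `Pool/Agent/Helper95/PW/Stmts.lean` -/

set_option autoImplicit false

namespace Pool.Agent.Helper95.PW

open MeasureTheory Filter

namespace S17

theorem sq_nonneg' {n : ℕ} (u : Wf n) : 0 ≤ sq u := by
  unfold sq
  exact Finset.sum_nonneg fun s _ => integral_nonneg fun x => sq_nonneg _

theorem kinG_nonneg {n : ℕ} (G : Fin n → Fin 3 → Wf n) : 0 ≤ kinG G := by
  unfold kinG
  exact Finset.sum_nonneg fun k _ => Finset.sum_nonneg fun i _ => sq_nonneg' _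

theorem sq_sum_le {n : ℕ} (g : Fin n → Wf n) (h : ∀ k s, MemLp (g k s) 2) :
    sq (fun s x => ∑ k, g k s x) ≤ n * ∑ k, sq (g k) := by
  unfold sq
  have h1 : ∀ s, ∫ x, (∑ k, g k s x) ^ 2 ≤ (n : ℝ) * ∑ k, ∫ x, g k s x ^ 2 := by
    intro s
    have hint : ∀ k, Integrable (fun x => g k s x ^ 2) := fun k => (h k s).integrable_sq
    rw [← integral_finsetSum _ (fun k _ => hint k), ← integral_const_mul]
    refine integral_mono_of_nonneg (Eventually.of_forall fun x => sq_nonneg _)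
      ((integrable_finsetSum _ (fun k _ => hint k)).const_mul _)
      (Eventually.of_forall fun x => ?_)
    have h2 := sq_sum_le_card_mul_sum_sq (s := (Finset.univ : Finset (Fin n)))
      (f := fun k => g k s x)
    simpa using h2
  calc ∑ s, ∫ x, (∑ k, g k s x) ^ 2 ≤ ∑ s, (n : ℝ) * ∑ k, ∫ x, g k s x ^ 2 :=
        Finset.sum_le_sum fun s _ => h1 s
    _ = n * ∑ k, ∑ s, ∫ x, g k s x ^ 2 := by
        rw [← Finset.mul_sum, Finset.sum_comm]

theorem mom_le {n : ℕ} (G : Fin n → Fin 3 → Wf n) (h : ∀ k i s, MemLp (G k i s) 2) :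
    mom G ≤ n * kinG G := by
  unfold mom kinG
  calc ∑ i, sq (fun s x => ∑ k, G k i s x) ≤ ∑ i, (n : ℝ) * ∑ k, sq (G k i) :=
        Finset.sum_le_sum fun i _ => sq_sum_le (fun k => G k i) (fun k s => h k i s)
    _ = n * ∑ k, ∑ i, sq (G k i) := by
        rw [← Finset.mul_sum, Finset.sum_comm]

end S17

open S17 in
theorem st_MAIN (hMOM : ST_MOM) (hTLO : ST_TLO) : ST_MAIN := by
  obtain ⟨C, hC, hM⟩ := hMOM
  obtain ⟨c, n0, hc, hT⟩ := hTLO
  have h1 : ∃ C : ℝ, 0 < C ∧ ∀ (n : ℕ) (E : ℝ) (φ : Wf n)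
      (G : Fin n → Fin 3 → Wf n), 1 ≤ n → Ground n E φ G →
      mom G ≤ C * (n : ℝ) ^ (-(1 / 300) : ℝ) * kinG G := by
    refine ⟨C / c + n0 * (n0 : ℝ) ^ (1 / 300 : ℝ), by positivity, ?_⟩
    intro n E φ G hn hG
    have hk := kinG_nonneg G
    have hn0 : (0 : ℝ) < n := by exact_mod_cast hn
    have hp : (0 : ℝ) < (n : ℝ) ^ (-(1 / 300) : ℝ) := by positivity
    by_cases hnn : n0 ≤ n
    · obtain ⟨hE, hK⟩ := hT n E φ G hnn hG
      have h2 := hM n E φ G hn hG hE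
      have e1 : (n : ℝ) ^ (7 / 3 - 1 / 300 : ℝ) =
          (n : ℝ) ^ (7 / 3 : ℝ) * (n : ℝ) ^ (-(1 / 300) : ℝ) := by
        rw [← Real.rpow_add hn0]
        congr 1
      have h3 : C * (n : ℝ) ^ (7 / 3 - 1 / 300 : ℝ) ≤
          C / c * (n : ℝ) ^ (-(1 / 300) : ℝ) * kinG G := by
        rw [e1]
        have h4 : C / c * (n : ℝ) ^ (-(1 / 300) : ℝ) * (c * (n : ℝ) ^ (7 / 3 : ℝ)) ≤
            C / c * (n : ℝ) ^ (-(1 / 300) : ℝ) * kinG G :=
          mul_le_mul_of_nonneg_left hK (by positivity)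
        refine le_trans (le_of_eq ?_) h4
        field_simp
      have h5 : 0 ≤ (n0 : ℝ) * (n0 : ℝ) ^ (1 / 300 : ℝ) * (n : ℝ) ^ (-(1 / 300) : ℝ) * kinG G := by
        positivity
      rw [add_mul, add_mul]
      linarith
    · have hle : (n : ℝ) ≤ n0 := by exact_mod_cast (not_le.1 hnn).le
      have h2 := mom_le G hG.lpG
      have h3 : (1 : ℝ) ≤ (n0 : ℝ) ^ (1 / 300 : ℝ) * (n : ℝ) ^ (-(1 / 300) : ℝ) := by
        rw [Real.rpow_neg hn0.le, ← div_eq_mul_inv, one_le_div (by positivity)]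
        exact Real.rpow_le_rpow hn0.le hle (by norm_num)
      have h4 : (n : ℝ) ≤ n0 * (n0 : ℝ) ^ (1 / 300 : ℝ) * (n : ℝ) ^ (-(1 / 300) : ℝ) := by
        calc (n : ℝ) ≤ n0 * 1 := by linarith
          _ ≤ n0 * ((n0 : ℝ) ^ (1 / 300 : ℝ) * (n : ℝ) ^ (-(1 / 300) : ℝ)) :=
              mul_le_mul_of_nonneg_left h3 (by positivity)
          _ = n0 * (n0 : ℝ) ^ (1 / 300 : ℝ) * (n : ℝ) ^ (-(1 / 300) : ℝ) := by ring
      have h5 : 0 ≤ C / c * (n : ℝ) ^ (-(1 / 300) : ℝ) * kinG G := by positivity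
      have h6 := mul_le_mul_of_nonneg_right h4 hk
      rw [add_mul, add_mul]
      linarith
  refine ⟨h1, ?_⟩
  obtain ⟨D, hD, h2⟩ := h1
  have ht : Tendsto (fun n : ℕ => D * (n : ℝ) ^ (-(1 / 300) : ℝ)) atTop (nhds (D * 0)) :=
    ((tendsto_rpow_neg_atTop (by norm_num : (0 : ℝ) < 1 / 300)).comp
      tendsto_natCast_atTop_atTop).const_mul D
  rw [mul_zero] at ht
  obtain ⟨n1, hn1⟩ := eventually_atTop.1 (ht.eventually (gt_mem_nhds (by norm_num : (0 : ℝ) < 3)))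
  refine ⟨max n1 1, fun n E φ G hn hG => ?_⟩
  have h3 := h2 n E φ G (le_trans (le_max_right _ _) hn) hG
  have h4 := hn1 n (le_trans (le_max_left _ _) hn)
  exact h3.trans (mul_le_mul_of_nonneg_right h4.le (kinG_nonneg G))

end Pool.Agent.Helper95.PW
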